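import Pool.Agent.H280R3.Thick

set_option autoImplicit false

open Filter Finset Topology

namespace Pool.Agent.Results.MP_7e65d6_nt.ThickSeparation

open Classical in
/-- the number of elements of `S` in `[M, N)` -/
noncomputable def count (S : Set ℕ) (M N : ℕ) : ℕ := ((Ico M N).filter (fun k => k ∈ S)).card

/-- `d^*(E) = 0`: the supremum over `M` of `|E ∩ [M, M + N)| / N` tends to `0` as `N → ∞` -/
def BanachDensityZero (E : Set ℕ) : Prop :=
  Tendsto (fun N : ℕ => ⨆ M : ℕ, (count E M (M + N) : ℝ) / (N : ℝ)) atTop (𝓝 0)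

/-- the upper density of `A` relative to `E`: the limsup of `|A ∩ E ∩ [N]| / |E ∩ [N]|`,
where `[N] = {1, …, N}` -/
noncomputable def relUpperDensity (E A : Set ℕ) : ℝ :=
  limsup (fun N : ℕ => (count (A ∩ E) 1 (N + 1) : ℝ) / (count E 1 (N + 1) : ℝ)) atTop

/-- `R` is `E`-intersective: for every `A ⊆ E` of positive upper density relative to `E` some
`r ∈ R` is a difference `a - b` of elements `a, b` of `A` -/
def IsIntersectiveIn (E R : Set ℕ) : Prop :=
  ∀ A ⊆ E, 0 < relUpperDensity E A → ∃ r ∈ R, ∃ a ∈ A, ∃ b ∈ A, (r : ℤ) = (a : ℤ) - (b : ℤ)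

/-- `R` is thick: it contains arbitrarily long intervals of integers -/
def IsThick (R : Set ℕ) : Prop := ∀ n : ℕ, ∃ y : ℕ, ∀ t ≤ n, y + t ∈ R

lemma count_le (S : Set ℕ) (M N : ℕ) : count S M N ≤ N - M := by
  classical
  unfold count
  refine (card_filter_le _ _).trans ?_
  simp

lemma count_mono {S T : Set ℕ} (h : S ⊆ T) (M N : ℕ) : count S M N ≤ count T M N := by
  classical
  unfold count
  exact card_le_card (fun k hk => by
    simp only [mem_filter] at hk ⊢
    exact ⟨hk.1, h hk.2⟩)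

lemma sparse_of (E : Set ℕ) (hE : BanachDensityZero E) :
    Pool.Agent.H280R3.SparseDiff.Sparse E := by
  intro ε hε
  obtain ⟨W, hW⟩ := eventually_atTop.1 (hE.eventually (gt_mem_nhds hε))
  refine ⟨W + 1, fun n hn M => ?_⟩
  have h0 : (0 : ℝ) < n := by
    have : 0 < n := by omega
    exact_mod_cast this
  have h1 := hW n (by omega)
  have hbdd : BddAbove (Set.range (fun M : ℕ => (count E M (M + n) : ℝ) / (n : ℝ))) := by
    refine ⟨1, ?_⟩
    rintro _ ⟨M, rfl⟩
    show (count E M (M + n) : ℝ) / (n : ℝ) ≤ 1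
    rw [div_le_one h0]
    have := count_le E M (M + n)
    have h2 : M + n - M = n := by omega
    rw [h2] at this
    exact_mod_cast this
  have h3 : (count E M (M + n) : ℝ) / (n : ℝ) < ε := lt_of_le_of_lt (le_ciSup hbdd M) h1
  rw [div_lt_iff₀ h0] at h3
  exact h3.le

lemma cnt_eq (S : Set ℕ) (N : ℕ) :
    Pool.Agent.H280R3.SparseDiff.cnt S N = count S 1 (N + 1) := by
  classical
  unfold Pool.Agent.H280R3.SparseDiff.cnt count
  congr 1

lemma count_pos (E : Set ℕ) (hE : E.Infinite) : ∀ᶠ N : ℕ in atTop, 0 < count E 1 (N + 1) := by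
  classical
  obtain ⟨e, he, he1⟩ := hE.exists_gt 0
  filter_upwards [eventually_ge_atTop e] with N hN
  unfold count
  refine card_pos.2 ⟨e, ?_⟩
  simp only [mem_filter, mem_Ico]
  exact ⟨⟨he1, by omega⟩, he⟩

lemma count_univ (N : ℕ) : count (Set.univ : Set ℕ) 1 (N + 1) = N := by
  classical
  unfold count
  simp

/-- thick sets of positive integers are intersective -/
lemma intersective_of_thick (R : Set ℕ) (hR0 : ∀ r ∈ R, 0 < r) (hR : IsThick R) :
    IsIntersectiveIn Set.univ R := by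
  intro A _ hA
  have h1 : ∃ᶠ N : ℕ in atTop, relUpperDensity Set.univ A / 2 <
      (count (A ∩ Set.univ) 1 (N + 1) : ℝ) / (count (Set.univ : Set ℕ) 1 (N + 1) : ℝ) := by
    refine frequently_lt_of_lt_limsup ?_ (by
      show relUpperDensity Set.univ A / 2 < relUpperDensity Set.univ A
      linarith)
    refine IsBoundedUnder.isCoboundedUnder_le ?_
    refine ⟨0, ?_⟩
    rw [eventually_map]
    exact Eventually.of_forall (fun N => by positivity)
  obtain ⟨r, hr, a, ha, b, hb, h⟩ := Pool.Agent.H280R3.SparseDiff.thick_meets R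
    (fun n => by
      obtain ⟨y, hy⟩ := hR n
      exact ⟨y, hR0 y (by simpa using hy 0 (by omega)), hy⟩) A (relUpperDensity Set.univ A / 2)
    (by linarith) (by
      refine (h1.and_eventually (eventually_gt_atTop 0)).mono ?_
      rintro N ⟨h2, h3⟩
      rw [count_univ, Set.inter_univ] at h2
      rw [cnt_eq]
      have h4 : (0 : ℝ) < N := by exact_mod_cast h3
      rw [lt_div_iff₀ h4] at h2
      exact h2.le)
  exact ⟨r, hr, a, ha, b, hb, by omega⟩

/-- For every infinite `E ⊆ ℕ` with `d^*(E) = 0` there is a thick set `R` of positive integers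
which is intersective but not `E`-intersective. -/
theorem result (E : Set ℕ) (hE : E.Infinite) (hE0 : BanachDensityZero E) :
    ∃ R : Set ℕ, (∀ r ∈ R, 1 ≤ r) ∧ IsThick R ∧
      IsIntersectiveIn Set.univ R ∧ ¬ IsIntersectiveIn E R := by
  obtain ⟨A, hAE, x, hx, hx0, hfr⟩ :=
    Pool.Agent.H280R3.SparseDiff.core E (sparse_of E hE0) (1 / 2) (by norm_num)
  have hR0 : ∀ r ∈ {r : ℕ | ∃ n, x n ≤ r ∧ r ≤ x n + n}, 1 ≤ r := by
    rintro r ⟨n, h1, h2⟩
    have := hx0 n
    omega
  have hthick : IsThick {r : ℕ | ∃ n, x n ≤ r ∧ r ≤ x n + n} := by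
    intro n
    refine ⟨x n, fun t ht => ⟨n, by omega, by omega⟩⟩
  refine ⟨{r | ∃ n, x n ≤ r ∧ r ≤ x n + n}, hR0, hthick,
    intersective_of_thick _ hR0 hthick, ?_⟩
  intro h
  obtain ⟨r, ⟨n, h1, h2⟩, a, ha, b, hb, hab⟩ := h A hAE (by
    refine lt_of_lt_of_le (by norm_num : (0 : ℝ) < 1 - 1 / 2) ?_
    refine le_limsup_of_frequently_le ?_ ?_
    · refine (hfr.and_eventually (count_pos E hE)).mono ?_
      rintro N ⟨h1, h2⟩
      rw [cnt_eq, cnt_eq] at h1
      have h3 : (0 : ℝ) < count E 1 (N + 1) := by exact_mod_cast h2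
      rw [le_div_iff₀ h3, Set.inter_eq_left.2 hAE]
      exact h1
    · refine ⟨1, ?_⟩
      rw [eventually_map]
      filter_upwards [count_pos E hE] with N hN
      have h3 : (0 : ℝ) < count E 1 (N + 1) := by exact_mod_cast hN
      rw [div_le_one h3]
      exact_mod_cast count_mono Set.inter_subset_right 1 (N + 1))
  exact hx n a ha b hb ⟨by omega, by omega⟩

end Pool.Agent.Results.MP_7e65d6_nt.ThickSeparation
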